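import Mathlib
import Pool.Agent.W288.ES.Wrap

/-!
# Every real degree `2 ≤ d ≤ 8`, in particular every `2 < d < 3`, occurs in the extended Selberg class

The conditions are those of the problem (in the form used in the frozen statements) except the Euler
product and the pointwise Ramanujan bound; instead of the latter we have the Ramanujan bound in mean
square, `∑_{n ≤ N} |a(n)|² ≤ C N`.
-/

set_option autoImplicit false

open Complex Finset

namespace Pool.Agent.Results.MP_e68f0a_nt.ExtendedSelbergDegrees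

/-- Axioms 1 and 3 of the Selberg class for the Dirichlet series with coefficients `a`, with
functional-equation data `(Q, lam, mu, ω)`: absolute convergence for `Re s > 1`, `(s - 1)^m F(s)` extends to
the entire function `G` of finite order, and the functional equation
`Φ(s) = ω conj(Φ(1 - conj s))`, `Φ(s) = Q^s ∏ Γ(lam_j s + mu_j) F(s)`. -/
def ExtendedSelberg (a : ℕ → ℂ) (m : ℕ) (G : ℂ → ℂ) (k : ℕ) (Q : ℝ) (lam : Fin k → ℝ) (mu : Fin k → ℂ)
    (ω : ℂ) : Prop :=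
  (∀ s : ℂ, 1 < s.re → LSeriesSummable a s) ∧
  Differentiable ℂ G ∧
  (∃ A C : ℝ, ∀ s : ℂ, ‖G s‖ ≤ C * Real.exp (‖s‖ ^ A)) ∧
  (∀ s : ℂ, 1 < s.re → G s = (s - 1) ^ m * LSeries a s) ∧
  0 < Q ∧ (∀ j, 0 < lam j) ∧ (∀ j, 0 ≤ (mu j).re) ∧ ‖ω‖ = 1 ∧
  (∀ s : ℂ, 0 < s.re → s.re < 1 →
    (Q : ℂ) ^ s * (∏ j, Complex.Gamma ((lam j : ℂ) * s + mu j)) * (G s / (s - 1) ^ m) =
    ω * starRingEnd ℂ
      ((Q : ℂ) ^ (1 - starRingEnd ℂ s)
        * (∏ j, Complex.Gamma ((lam j : ℂ) * (1 - starRingEnd ℂ s) + mu j))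
        * (G (1 - starRingEnd ℂ s) / (1 - starRingEnd ℂ s - 1) ^ m)))

/-- For every real `d` with `2 ≤ d ≤ 8` there is a function with `a(1) = 1` and degree `2 ∑ lam_j = d` in the
extended Selberg class, which moreover satisfies the Ramanujan bound in mean square. -/
theorem result : ∀ d : ℝ, 2 ≤ d → d ≤ 8 →
    ∃ (a : ℕ → ℂ) (m : ℕ) (G : ℂ → ℂ) (k : ℕ) (Q : ℝ) (lam : Fin k → ℝ) (mu : Fin k → ℂ) (ω : ℂ),
      ExtendedSelberg a m G k Q lam mu ω ∧ a 1 = 1 ∧
      (∃ C : ℝ, ∀ N : ℕ, ∑ n ∈ Icc 1 N, ‖a n‖ ^ 2 ≤ C * N) ∧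
      2 * ∑ j, lam j = d := by
  intro d hd2 hd8
  obtain ⟨lam, hlam⟩ : ∃ lam : ℝ, lam = d / 2 := ⟨_, rfl⟩
  obtain ⟨Q, ε, ν, a, F, hQ, hε, hν, ha1, hd, hgr, hms, hser, hfe⟩ :=
    Pool.Agent.W288.ES.exists_example lam (by linarith) (by linarith)
  have hl : 0 < lam := by linarith
  refine ⟨fun n => (a n : ℂ), 0, F, 1, Q, fun _ => lam, fun _ => (ν : ℂ), ε, ⟨fun s hs => (hser s hs).1, hd,
    ?_, fun s hs => ?_, hQ, fun _ => hl, fun _ => by simpa using hν, ?_, fun s hs0 hs1 => ?_⟩, by simp [ha1], ?_, ?_⟩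
  · obtain ⟨A, C, h⟩ := hgr
    exact ⟨A, C, h⟩
  · rw [pow_zero, one_mul]
    exact (hser s hs).2
  · rcases hε with h | h <;> rw [h] <;> simp
  · have h1 : ∀ n : ℕ, (lam : ℂ) * s + ν ≠ -(n : ℂ) := by
      intro n hn
      have h2 := congrArg Complex.re hn
      simp at h2
      have h3 : 0 < lam * s.re := mul_pos hl hs0
      have h4 : (0 : ℝ) ≤ n := Nat.cast_nonneg n
      linarith
    have h1' : ∀ n : ℕ, (lam : ℂ) * (1 - starRingEnd ℂ s) + ν ≠ -(n : ℂ) := by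
      intro n hn
      have h2 := congrArg Complex.re hn
      simp at h2
      have h3 : 0 < lam * (1 - s.re) := mul_pos hl (by linarith)
      have h4 : (0 : ℝ) ≤ n := Nat.cast_nonneg n
      linarith
    have h5 := hfe s h1 h1'
    simp only [Finset.univ_unique, Finset.prod_singleton, pow_zero, div_one]
    have e1 : (Q : ℂ) ^ s * Gamma ((lam : ℂ) * s + ν) * F s =
        F s * (Q : ℂ) ^ s * Gamma ((lam : ℂ) * s + ν) := by ring
    rw [e1, h5]
    congr 2
    ring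
  · obtain ⟨C, hC⟩ := hms
    refine ⟨C, fun N => ?_⟩
    simp_rw [Complex.norm_real, Real.norm_eq_abs, sq_abs]
    exact hC N
  · simp [hlam]
    ring

end Pool.Agent.Results.MP_e68f0a_nt.ExtendedSelbergDegrees
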